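import Pool.Agent.W97.KF.Gen

/-!
Definitions for Kurihara's equivariant conjecture on the Fitting ideals of the dual Selmer groups of
an ordinary elliptic curve over the fields `ℚ(μ_{mp^∞})`.
-/

set_option autoImplicit false

open UpperHalfPlane
open scoped Classical

namespace Pool.Agent.W97.KF

open Pool.Agent.W97.MT (prim IsGloballyMinimal affCount ap)
open Pool.Agent.W97.V20 (fE psi)

/-! ### Galois group and points -/

/-- `ℚ̄` -/
def Qb : Type := AlgebraicClosure ℚ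

noncomputable instance instFieldQb : Field Qb := AlgebraicClosure.instField ℚ

/-- `Gal(ℚ̄/ℚ)`, with the Krull topology -/
def GQ : Type := AlgebraicClosure ℚ ≃ₐ[ℚ] AlgebraicClosure ℚ

noncomputable instance instGroupGQ : Group GQ :=
  @AlgEquiv.aut ℚ (AlgebraicClosure ℚ) _ _ _

noncomputable instance instTopGQ : TopologicalSpace GQ :=
  krullTopology ℚ (AlgebraicClosure ℚ)

/-- the automorphism of `ℚ̄` given by `g ∈ Gal(ℚ̄/ℚ)` -/
noncomputable def app (g : GQ) : Qb →+* Qb :=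
  RingHomClass.toRingHom (F := AlgebraicClosure ℚ ≃ₐ[ℚ] AlgebraicClosure ℚ)
    (α := AlgebraicClosure ℚ) (β := AlgebraicClosure ℚ) g

/-- `E(F)`, the points of the curve `W` over the field `F` -/
def Pt (W : WeierstrassCurve ℤ) (F : Type) [Field F] : Type := (W.baseChange F).toAffine.Point

noncomputable instance instPt (W : WeierstrassCurve ℤ) (F : Type) [Field F] :
    AddCommGroup (Pt W F) :=
  @WeierstrassCurve.Affine.Point.instAddCommGroup F _ (W.baseChange F).toAffine _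

/-- the map `E(F) → E(K)` induced by a homomorphism `F → K` of fields -/
noncomputable def mapPt (W : WeierstrassCurve ℤ) {F K : Type} [Field F] [Field K] (f : F →+* K) :
    Pt W F →+ Pt W K :=
  WeierstrassCurve.Affine.Point.map (W' := W) f.toIntAlgHom

/-- the action of `g ∈ Gal(ℚ̄/ℚ)` on `E(ℚ̄)` -/
noncomputable def act (W : WeierstrassCurve ℤ) (g : GQ) : Pt W Qb →+ Pt W Qb := mapPt W (app g)

/-- `g ∈ Gal(ℚ̄/K_{m,∞})` for `K_{m,∞} = ⋃_n ℚ(μ_{mp^(n+1)})`: `g` fixes all `mp^(n+1)`-th roots of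
unity, for all `n ≥ 0` -/
def InH (p m : ℕ) (g : GQ) : Prop :=
  ∀ (n : ℕ) (z : Qb), z ^ (m * p ^ (n + 1)) = 1 → app g z = z

theorem InH.mul {p m : ℕ} {g h : GQ} (hg : InH p m g) (hh : InH p m h) : InH p m (g * h) :=
  (Pool.Agent.W97.KE.H p m).mul_mem hg hh

theorem InH.conj {p m : ℕ} {g : GQ} (hg : InH p m g) (h : GQ) : InH p m (h⁻¹ * g * h) := by
  have h1 := (inferInstance : (Pool.Agent.W97.KE.H p m).Normal).conj_mem g hg h⁻¹
  have h2 : h⁻¹ * g * h = h⁻¹ * g * h⁻¹⁻¹ := by rw [inv_inv]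
  rw [h2]
  exact h1

/-- `Gal(ℚ̄/K_{m,∞})` -/
def H (p m : ℕ) : Type := {g : GQ // InH p m g}

noncomputable instance instTopH (p m : ℕ) : TopologicalSpace (H p m) :=
  @instTopologicalSpaceSubtype GQ (InH p m) _

/-- the inclusion `Gal(ℚ̄/K_{m,∞}) → Gal(ℚ̄/ℚ)` -/
def toG {p m : ℕ} (g : H p m) : GQ := g.1

/-- the product in `Gal(ℚ̄/K_{m,∞})` -/
noncomputable def mulH {p m : ℕ} (g h : H p m) : H p m := ⟨toG g * toG h, g.2.mul h.2⟩

/-- `h⁻¹ g h`, for `h ∈ Gal(ℚ̄/ℚ)` and `g ∈ Gal(ℚ̄/K_{m,∞})` -/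
noncomputable def conjH {p m : ℕ} (h : GQ) (g : H p m) : H p m := ⟨h⁻¹ * toG g * h, g.2.conj h⟩

/-! ### The Selmer group -/

/-- the cochains of `Gal(ℚ̄/K_{m,∞})` with values in `E(ℚ̄)` -/
def Coch (W : WeierstrassCurve ℤ) (p m : ℕ) : Type := H p m → Pt W Qb

noncomputable instance instCoch (W : WeierstrassCurve ℤ) (p m : ℕ) : AddCommGroup (Coch W p m) :=
  @Pi.addCommGroup (H p m) (fun _ => Pt W Qb) (fun _ => instPt W Qb)

/-- the value `c(g)` of a cochain -/
def ev {W : WeierstrassCurve ℤ} {p m : ℕ} (c : Coch W p m) (g : H p m) : Pt W Qb := c g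

/-- Local triviality of a cocycle `c` of `Gal(ℚ̄/K_{m,∞})` with values in `E(ℚ̄)`, at all the places
of `K_{m,∞}` above the place of `ℚ` with completion `k`; here `Ω` is an algebraic closure of `k`.
The places of `ℚ̄` above it are given by the embeddings `ι : ℚ̄ → Ω`, and for each of them the
decomposition group in `Gal(ℚ̄/K_{m,∞})` consists of the restrictions `g` of automorphisms `τ` of
`Ω/k`. The condition is that the image of `c` in `H¹((K_{m,∞})_v, E)` vanishes. -/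
def LocTriv (W : WeierstrassCurve ℤ) (p m : ℕ) (k Ω : Type) [Field k] [Field Ω] [Algebra k Ω]
    (c : Coch W p m) : Prop :=
  ∀ ι : Qb →+* Ω, ∃ P : Pt W Ω, ∀ (g : H p m) (τ : Ω ≃ₐ[k] Ω),
    (∀ x : Qb, ι (app (toG g) x) = τ (ι x)) → mapPt W ι (ev c g) = mapPt W (τ : Ω →+* Ω) P - P

/-- `c` is a continuous `1`-cocycle of `Gal(ℚ̄/K_{m,∞})` with values in `E[p^∞]` -/
structure IsCocycle (W : WeierstrassCurve ℤ) (p m : ℕ) (c : Coch W p m) : Prop where
  cont : IsLocallyConstant (ev c)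
  tors : ∀ g, ∃ k : ℕ, p ^ k • ev c g = 0
  mul : ∀ g h, ev c (mulH g h) = ev c g + act W (toG g) (ev c h)

/-- `c` satisfies the local conditions of the Selmer group at all places of `K_{m,∞}` -/
structure IsSelmer (W : WeierstrassCurve ℤ) (p m : ℕ) (c : Coch W p m) : Prop where
  fin : ∀ (l : ℕ) [Fact l.Prime], LocTriv W p m ℚ_[l] (AlgebraicClosure ℚ_[l]) c
  inf : LocTriv W p m ℝ ℂ c

/-- `c` is a continuous cocycle with values in `E[p^∞]` satisfying the Selmer conditions -/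
def IsZ (W : WeierstrassCurve ℤ) (p m : ℕ) (c : Coch W p m) : Prop :=
  IsCocycle W p m c ∧ IsSelmer W p m c

/-- `c` is a coboundary `g ↦ gP - P` with `P ∈ E[p^∞]` -/
def IsB (W : WeierstrassCurve ℤ) (p m : ℕ) (c : Coch W p m) : Prop :=
  ∃ P : Pt W Qb, (∃ k : ℕ, p ^ k • P = 0) ∧ ∀ g, ev c g = act W (toG g) P - P

section
variable (W : WeierstrassCurve ℤ) (p m : ℕ)

theorem isZ_iff (c : Coch W p m) : IsZ W p m c ↔
    Pool.Agent.W97.KE.IsCocycle W p m c ∧ Pool.Agent.W97.KE.IsSelmer W p m c :=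
  ⟨fun h => ⟨⟨h.1.1, h.1.2, h.1.3⟩, ⟨fun l _ => h.2.1 l, h.2.2⟩⟩,
    fun h => ⟨⟨h.1.1, h.1.2, h.1.3⟩, ⟨fun l _ => h.2.1 l, h.2.2⟩⟩⟩

theorem isZ_add {a b : Coch W p m} (ha : IsZ W p m a) (hb : IsZ W p m b) : IsZ W p m (a + b) :=
  (isZ_iff W p m _).2 ((Pool.Agent.W97.KE.ZSel W p m).add_mem
    ((isZ_iff W p m _).1 ha) ((isZ_iff W p m _).1 hb))

theorem isZ_zero : IsZ W p m 0 := (isZ_iff W p m _).2 (Pool.Agent.W97.KE.ZSel W p m).zero_mem

theorem isZ_neg {a : Coch W p m} (ha : IsZ W p m a) : IsZ W p m (-a) :=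
  (isZ_iff W p m _).2 ((Pool.Agent.W97.KE.ZSel W p m).neg_mem ((isZ_iff W p m _).1 ha))

theorem isB_add {a b : Coch W p m} (ha : IsB W p m a) (hb : IsB W p m b) : IsB W p m (a + b) :=
  (Pool.Agent.W97.KE.BSel W p m).add_mem ha hb

theorem isB_zero : IsB W p m 0 := (Pool.Agent.W97.KE.BSel W p m).zero_mem

theorem isB_neg {a : Coch W p m} (ha : IsB W p m a) : IsB W p m (-a) :=
  (Pool.Agent.W97.KE.BSel W p m).neg_mem ha

end

/-- the group of continuous cocycles with values in `E[p^∞]` satisfying the Selmer conditions -/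
noncomputable def ZSel (W : WeierstrassCurve ℤ) (p m : ℕ) : AddSubgroup (Coch W p m) where
  carrier := {c | IsZ W p m c}
  add_mem' := isZ_add W p m
  zero_mem' := isZ_zero W p m
  neg_mem' := isZ_neg W p m

/-- the group of coboundaries -/
noncomputable def BSel (W : WeierstrassCurve ℤ) (p m : ℕ) : AddSubgroup (Coch W p m) where
  carrier := {c | IsB W p m c}
  add_mem' := isB_add W p m
  zero_mem' := isB_zero W p m
  neg_mem' := isB_neg W p m

/-- the group of cocycles as a type -/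
def ZS (W : WeierstrassCurve ℤ) (p m : ℕ) : Type := ZSel W p m

noncomputable instance instZS (W : WeierstrassCurve ℤ) (p m : ℕ) : AddCommGroup (ZS W p m) :=
  (ZSel W p m).toAddCommGroup

/-- the coboundaries in the group of cocycles -/
noncomputable def BS (W : WeierstrassCurve ℤ) (p m : ℕ) : AddSubgroup (ZS W p m) :=
  (BSel W p m).addSubgroupOf (ZSel W p m)

/-- **The Selmer group** `Sel(E/K_{m,∞})` (`p^∞`-Selmer group) -/
def Sel (W : WeierstrassCurve ℤ) (p m : ℕ) : Type := ZS W p m ⧸ BS W p m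

noncomputable instance instSel (W : WeierstrassCurve ℤ) (p m : ℕ) : AddCommGroup (Sel W p m) :=
  QuotientAddGroup.Quotient.addCommGroup (BS W p m)

/-- the action of `h ∈ Gal(ℚ̄/ℚ)` on cochains: `(h·c)(g) = h c(h⁻¹ g h)` -/
noncomputable def cfun {W : WeierstrassCurve ℤ} {p m : ℕ} (h : GQ) (c : Coch W p m) : Coch W p m :=
  fun g => act W h (ev c (conjH h g))

section
variable (W : WeierstrassCurve ℤ) (p m : ℕ) (h : GQ)

theorem cfun_zero : cfun h (0 : Coch W p m) = 0 := (Pool.Agent.W97.KE.cact W p m h).map_zero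

theorem cfun_add (c d : Coch W p m) : cfun h (c + d) = cfun h c + cfun h d :=
  (Pool.Agent.W97.KE.cact W p m h).map_add c d

theorem cfun_isZ {c : Coch W p m} (hc : IsZ W p m c) : IsZ W p m (cfun h c) :=
  (isZ_iff W p m _).2 (Pool.Agent.W97.KE.cact_mem_ZSel W p m h ((isZ_iff W p m _).1 hc))

theorem cfun_isB {c : Coch W p m} (hc : IsB W p m c) : IsB W p m (cfun h c) :=
  Pool.Agent.W97.KE.cact_mem_BSel W p m h hc

end

/-- the action of `h ∈ Gal(ℚ̄/ℚ)` on cochains as a homomorphism -/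
noncomputable def cact (W : WeierstrassCurve ℤ) (p m : ℕ) (h : GQ) : Coch W p m →+ Coch W p m where
  toFun := cfun h
  map_zero' := cfun_zero W p m h
  map_add' := cfun_add W p m h

/-- the inclusion of the cocycles in the cochains -/
noncomputable def incl (W : WeierstrassCurve ℤ) (p m : ℕ) : ZS W p m →+ Coch W p m :=
  (ZSel W p m).subtype

/-- the action of `h ∈ Gal(ℚ̄/ℚ)` on the cocycles -/
noncomputable def zact (W : WeierstrassCurve ℤ) (p m : ℕ) (h : GQ) : ZS W p m →+ ZS W p m :=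
  ((cact W p m h).comp (incl W p m)).codRestrict (ZSel W p m) fun c => cfun_isZ W p m h c.2

theorem zact_le (W : WeierstrassCurve ℤ) (p m : ℕ) (h : GQ) :
    BS W p m ≤ (BS W p m).comap (zact W p m h) :=
  fun _ hc => cfun_isB W p m h hc

/-- the action of `Gal(ℚ̄/ℚ)` on the Selmer group -/
noncomputable def selAct (W : WeierstrassCurve ℤ) (p m : ℕ) (h : GQ) : Sel W p m →+ Sel W p m :=
  QuotientAddGroup.map (BS W p m) (BS W p m) (zact W p m h) (zact_le W p m h)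

/-! ### The ring `ℛ_m` -/

/-- `h` acts on the `N`-th roots of unity by `z ↦ z^u` -/
def IsSig (N : ℕ) (u : (ZMod N)ˣ) (h : GQ) : Prop :=
  ∀ z : Qb, z ^ N = 1 → app h z = z ^ (u : ZMod N).val

instance instNonemptyGQ : Nonempty GQ := ⟨1⟩

/-- an element of `Gal(ℚ̄/ℚ)` whose restriction to `ℚ(μ_N)` is `σ_u` -/
noncomputable def sig (N : ℕ) (u : (ZMod N)ˣ) : GQ := Classical.epsilon (IsSig N u)

/-- `R_{m,n} = ℤ_p[Gal(K_{m,n}/ℚ)]` with `Gal(K_{m,n}/ℚ) = (ℤ/mp^(n+1))ˣ`, `σ_u ↔ u` -/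
def Rn (p : ℕ) [Fact p.Prime] (m n : ℕ) : Type := MonoidAlgebra ℤ_[p] (ZMod (m * p ^ (n + 1)))ˣ

noncomputable instance instRn (p : ℕ) [Fact p.Prime] (m n : ℕ) : CommRing (Rn p m n) :=
  MonoidAlgebra.commRing

/-- the coefficient of `σ_u` in `x` -/
noncomputable def coef {p : ℕ} [Fact p.Prime] {m n : ℕ} (x : Rn p m n)
    (u : (ZMod (m * p ^ (n + 1)))ˣ) : ℤ_[p] :=
  MonoidAlgebra.coeff (R := ℤ_[p]) (M := (ZMod (m * p ^ (n + 1)))ˣ) x u

/-- `c σ_u` -/
noncomputable def mono {p : ℕ} [Fact p.Prime] {m n : ℕ} (u : (ZMod (m * p ^ (n + 1)))ˣ)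
    (c : ℤ_[p]) : Rn p m n :=
  MonoidAlgebra.single u c

/-- the projection `R_{m,n+1} → R_{m,n}` -/
noncomputable def projn (p : ℕ) [Fact p.Prime] (m n : ℕ) : Rn p m (n + 1) →+* Rn p m n :=
  MonoidAlgebra.mapDomainRingHom ℤ_[p] (ZMod.unitsMap
    (Nat.mul_dvd_mul_left m (pow_dvd_pow p (Nat.le_succ (n + 1)))))

/-- the sequence `x` is compatible with the projections -/
def Compat (p : ℕ) [Fact p.Prime] (m : ℕ) (x : ∀ n, Rn p m n) : Prop :=
  ∀ n, projn p m n (x (n + 1)) = x n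

section
variable (p : ℕ) [Fact p.Prime] (m : ℕ)

theorem compat_mul {x y : ∀ n, Rn p m n} (hx : Compat p m x) (hy : Compat p m y) :
    Compat p m (x * y) := (Pool.Agent.W97.KE.Rm p m).mul_mem hx hy

theorem compat_one : Compat p m 1 := (Pool.Agent.W97.KE.Rm p m).one_mem

theorem compat_add {x y : ∀ n, Rn p m n} (hx : Compat p m x) (hy : Compat p m y) :
    Compat p m (x + y) := (Pool.Agent.W97.KE.Rm p m).add_mem hx hy

theorem compat_zero : Compat p m 0 := (Pool.Agent.W97.KE.Rm p m).zero_mem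

theorem compat_neg {x : ∀ n, Rn p m n} (hx : Compat p m x) :
    Compat p m (-x) := (Pool.Agent.W97.KE.Rm p m).neg_mem hx

end

/-- the ring of compatible sequences in `∏_n R_{m,n}` -/
noncomputable def RmS (p : ℕ) [Fact p.Prime] (m : ℕ) : Subring (∀ n, Rn p m n) where
  carrier := {x | Compat p m x}
  mul_mem' := compat_mul p m
  one_mem' := compat_one p m
  add_mem' := compat_add p m
  zero_mem' := compat_zero p m
  neg_mem' := compat_neg p m

/-- `ℛ_m = lim R_{m,n} = ℤ_p[[Gal(K_{m,∞}/ℚ)]]` -/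
def Rm (p : ℕ) [Fact p.Prime] (m : ℕ) : Type := RmS p m

noncomputable instance instRm (p : ℕ) [Fact p.Prime] (m : ℕ) : CommRing (Rm p m) :=
  (RmS p m).toCommRing

/-- the component of `x ∈ ℛ_m` in `R_{m,n}` -/
def comp {p : ℕ} [Fact p.Prime] {m : ℕ} (x : Rm p m) (n : ℕ) : Rn p m n := x.1 n

/-- the class `a` is fixed by `Gal(ℚ̄/K_{m,n})` -/
def FixedBy (W : WeierstrassCurve ℤ) (p m : ℕ) (a : Sel W p m) (n : ℕ) : Prop :=
  ∀ h : GQ, (∀ z : Qb, z ^ (m * p ^ (n + 1)) = 1 → app h z = z) → selAct W p m h a = a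

/-- The action of `r ∈ ℛ_m` on `Sel(E/K_{m,∞})` for which `σ_u` acts as `σ_u⁻¹` (so that `σ_u` acts
on the Pontryagin dual by `(σ_u f)(a) = f(σ_u⁻¹ a)`): if `a` is fixed by `Gal(ℚ̄/K_{m,n})` and
`p^k a = 0`, and `r` has the component `∑_u r_u σ_u` in `R_{m,n}`, then
`r · a = ∑_u (r_u mod p^k) σ_u⁻¹ a`. -/
noncomputable def smulSel (W : WeierstrassCurve ℤ) (p : ℕ) [Fact p.Prime] (m : ℕ) (r : Rm p m)
    (a : Sel W p m) : Sel W p m :=
  let n := Classical.epsilon (FixedBy W p m a)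
  let k := Classical.epsilon (fun k : ℕ => p ^ k • a = 0)
  ∑ᶠ u : (ZMod (m * p ^ (n + 1)))ˣ,
    (coef (comp r n) u).appr k • selAct W p m (sig (m * p ^ (n + 1)) u)⁻¹ a

/-- an auxiliary description of `ZSel` for the proofs -/
noncomputable def newDat (W : WeierstrassCurve ℤ) (p m : ℕ) : Gen.Dat W p m where
  Z := ZSel W p m
  hZ := fun h _ hc => cfun_isZ W p m h hc

theorem newDat_eq (W : WeierstrassCurve ℤ) (p m : ℕ) : newDat W p m = Gen.oldDat W p m := by
  have h : ∀ (a b : Gen.Dat W p m), a.Z = b.Z → a = b := by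
    rintro ⟨a, ha⟩ ⟨b, hb⟩ h
    subst h
    rfl
  refine h _ _ ?_
  apply SetLike.ext
  intro c
  exact isZ_iff W p m c

section
variable (W : WeierstrassCurve ℤ) (p : ℕ) [Fact p.Prime] (m : ℕ) [NeZero m]

theorem mod_new : (newDat W p m).Mod := by
  rw [newDat_eq]
  exact Gen.mod_old W p m

theorem sel_one (a : Sel W p m) : smulSel W p m 1 a = a := (mod_new W p m).one_smul a

theorem sel_mul (r s : Rm p m) (a : Sel W p m) :
    smulSel W p m (r * s) a = smulSel W p m r (smulSel W p m s a) := (mod_new W p m).mul_smul r s a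

theorem sel_add (r : Rm p m) (a b : Sel W p m) :
    smulSel W p m r (a + b) = smulSel W p m r a + smulSel W p m r b :=
  (mod_new W p m).smul_add r a b

theorem sel_add' (r s : Rm p m) (a : Sel W p m) :
    smulSel W p m (r + s) a = smulSel W p m r a + smulSel W p m s a :=
  (mod_new W p m).add_smul r s a

theorem sel_zero (r : Rm p m) : smulSel W p m r 0 = 0 := (mod_new W p m).smul_zero r

theorem sel_zero' (a : Sel W p m) : smulSel W p m 0 a = 0 := (mod_new W p m).zero_smul a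

end

/-- the `ℛ_m`-module `Sel(E/K_{m,∞})`, with the action `smulSel` -/
noncomputable instance instModSel (W : WeierstrassCurve ℤ) (p : ℕ) [Fact p.Prime] (m : ℕ)
    [NeZero m] : Module (Rm p m) (Sel W p m) where
  smul := smulSel W p m
  one_smul := sel_one W p m
  mul_smul := sel_mul W p m
  smul_add := sel_add W p m
  add_smul := sel_add' W p m
  smul_zero := sel_zero W p m
  zero_smul := sel_zero' W p m

/-- `X_m = Sel(E/K_{m,∞})^∨ = Hom(Sel(E/K_{m,∞}), ℚ/ℤ)`, the Pontryagin dual -/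
def X (W : WeierstrassCurve ℤ) (p m : ℕ) : Type := CharacterModule (Sel W p m)

noncomputable instance instX (W : WeierstrassCurve ℤ) (p m : ℕ) : AddCommGroup (X W p m) :=
  @AddMonoidHom.instAddCommGroup (Sel W p m) (AddCircle (1 : ℚ)) _ _

/-- `X_m` is an `ℛ_m`-module with `(r f)(a) = f(r a)` (so `(σ_u f)(a) = f(σ_u⁻¹ a)`, see
`smulSel`) -/
noncomputable instance instModX (W : WeierstrassCurve ℤ) (p : ℕ) [Fact p.Prime] (m : ℕ)
    [NeZero m] : Module (Rm p m) (X W p m) :=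
  @CharacterModule.instModule (Rm p m) _ (Sel W p m) _ _

/-! ### Modular symbols and the elements `ϑ` -/

/-- the real period `Ω⁺ = 2 ∫ dx/√ψ(x)` over the half-line to the right of the largest real root
of `ψ(x) = 4x³ + b_2 x² + 2 b_4 x + b_6 = (2y + a_1 x + a_3)²` (the least positive real period of
the Néron differential `dx/(2y + a_1 x + a_3)` of a minimal equation) -/
noncomputable def Omp (W : WeierstrassCurve ℤ) : ℝ :=
  2 * ∫ x in {x : ℝ | ∀ t, x ≤ t → 0 < psi W t}, (Real.sqrt (psi W x))⁻¹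

/-- `Ω⁻ / i`, where `Ω⁻ = 2i ∫ dx/√(-ψ(x))` over the half-line to the left of the smallest real root
of `ψ` (the least period of the Néron differential on the positive imaginary half-axis) -/
noncomputable def Omm (W : WeierstrassCurve ℤ) : ℝ :=
  2 * ∫ x in {x : ℝ | ∀ t, t ≤ x → psi W t < 0}, (Real.sqrt (-psi W x))⁻¹

/-- the modular symbols `[r]^±`: `2π ∫_0^∞ f_E(r + iy) dy = [r]⁺ Ω⁺ + [r]⁻ Ω⁻` -/
structure Symb (W : WeierstrassCurve ℤ) where
  plus : ℚ → ℚ
  minus : ℚ → ℚ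
  eq : ∀ r : ℚ, prim (fE W) (r : ℂ) = plus r * (Omp W : ℂ) + minus r * (Complex.I * (Omm W : ℂ))

/-- the coefficient of `σ_u` in `θ_M = ∑_a ([a/M]⁺ + [a/M]⁻) σ_a⁻¹` -/
noncomputable def theta {W : WeierstrassCurve ℤ} (S : Symb W) (M : ℕ) (u : (ZMod M)ˣ) : ℚ :=
  S.plus (((u⁻¹ : (ZMod M)ˣ) : ZMod M).val / M) + S.minus (((u⁻¹ : (ZMod M)ˣ) : ZMod M).val / M)

/-- `x = ϑ^α_{m,∞}`: for all `n ≥ 0` the component of `x` in `R_{m,n}` is
`α^(-(n+1)) (θ_{mp^(n+1)} - α⁻¹ ν(θ_{mp^n}))`; the coefficient of `σ_u` in `ν(y)` is the coefficient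
in `y` of the image of `σ_u`. -/
def IsTheta {W : WeierstrassCurve ℤ} (S : Symb W) {p : ℕ} [Fact p.Prime] (α : ℤ_[p]) (m : ℕ)
    (x : Rm p m) : Prop :=
  ∀ (n : ℕ) (u : (ZMod (m * p ^ (n + 1)))ˣ), (coef (comp x n) u : ℚ_[p]) =
    ((α : ℚ_[p]) ^ (n + 1))⁻¹ * ((theta S (m * p ^ (n + 1)) u : ℚ) -
      (α : ℚ_[p])⁻¹ * (theta S (m * p ^ n) (ZMod.unitsMap
        (Nat.mul_dvd_mul_left m (pow_dvd_pow p (Nat.le_succ n))) u) : ℚ))

/-- the map `ν : R_{m',n} → R_{m,n}` for `m' ∣ m`: it sends `σ` to the sum of all elements of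
`Gal(K_{m,n}/ℚ)` with restriction `σ` -/
noncomputable def nun (p : ℕ) [Fact p.Prime] {m' m : ℕ} (h : m' ∣ m) (n : ℕ) (x : Rn p m' n) :
    Rn p m n :=
  ∑ᶠ u : (ZMod (m * p ^ (n + 1)))ˣ,
    mono u (coef x (ZMod.unitsMap (Nat.mul_dvd_mul_right h (p ^ (n + 1))) u))

theorem compat_nu (p : ℕ) [Fact p.Prime] {m' m : ℕ} [NeZero m] (h : m' ∣ m) (hp : ¬ p ∣ m)
    (x : Rm p m') : Compat p m (fun n => nun p h n (comp x n)) :=
  (Pool.Agent.W97.KE.nu p h hp x).2

/-- `ν : ℛ_{m'} → ℛ_m` for `m' ∣ m`, `p ∤ m` -/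
noncomputable def nu (p : ℕ) [Fact p.Prime] {m' m : ℕ} [NeZero m] (h : m' ∣ m) (hp : ¬ p ∣ m)
    (x : Rm p m') : Rm p m :=
  ⟨fun n => nun p h n (comp x n), compat_nu p h hp x⟩

/-- `I` is the (initial) Fitting ideal of the finitely generated module `M`: it is generated by the
determinants of the square matrices whose rows are relations between given generators. -/
def IsFitt (R M : Type) [CommRing R] [AddCommGroup M] [Module R M] (I : Ideal R) : Prop :=
  ∃ (n : ℕ) (φ : (Fin n → R) →ₗ[R] M), Function.Surjective φ ∧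
    I = Ideal.span {d : R | ∃ A : Matrix (Fin n) (Fin n) R, (∀ i, φ (A i) = 0) ∧ d = A.det}

/-! ### The conjecture -/

/-- `E[p]` is irreducible as a module over `Gal(ℚ̄/ℚ)` -/
def IrredTors (W : WeierstrassCurve ℤ) (p : ℕ) : Prop :=
  ∀ V : AddSubgroup (Pt W Qb), (∀ P ∈ V, p • P = 0) → (∀ (g : GQ), ∀ P ∈ V, act W g P ∈ V) →
    V = ⊥ ∨ ∀ P : Pt W Qb, p • P = 0 → P ∈ V

/-- the assumptions on `(E, p, m)` -/
structure Setting (W : WeierstrassCurve ℤ) (p m : ℕ) : Prop where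
  /-- `W` is a global minimal equation of `E` -/
  minimal : IsGloballyMinimal W
  prime : p.Prime
  odd : p ≠ 2
  /-- good ordinary reduction at `p` -/
  good : ¬ (p : ℤ) ∣ W.Δ
  ordinary : ¬ (p : ℤ) ∣ ap W p
  irred : IrredTors W p
  /-- `E(𝔽_p)[p] = 0` -/
  tors : ¬ p ∣ affCount W p + 1
  pos : 1 ≤ m
  /-- `m` is prime to `pN` -/
  coprime : ∀ q : ℕ, q.Prime → q ∣ m → q ≠ p ∧ ¬ (q : ℤ) ∣ W.Δ

/-- **The formula of the conjecture** for `(E, p, m)`: the Fitting ideal of the `ℛ_m`-module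
`Sel(E/K_{m,∞})^∨` is generated by the elements `ν(ϑ^α_{m',∞})`, `m' ∣ m`. -/
def KuriharaFormula (W : WeierstrassCurve ℤ) (p : ℕ) [Fact p.Prime] (m : ℕ) [NeZero m] : Prop :=
  ∃ (S : Symb W) (α : ℤ_[p]) (ϑ : ∀ m' : ℕ, Rm p m') (hp : ¬ p ∣ m),
    -- `α` is the unit root
    α ^ 2 - ap W p * α + p = 0 ∧ IsUnit α ∧
    -- `ϑ m' = ϑ^α_{m',∞}`
    (∀ m' : ℕ, m' ∣ m → IsTheta S α m' (ϑ m')) ∧
    IsFitt (Rm p m) (X W p m) (Ideal.span {y | ∃ (m' : ℕ) (h : m' ∣ m), y = nu p h hp (ϑ m')})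

/-- **Kurihara's conjecture (Q1)**: the formula holds for all `E`, `p`, `m` as in the setting. -/
def KuriharaConjecture : Prop :=
  ∀ (W : WeierstrassCurve ℤ) (p : ℕ) [Fact p.Prime] (m : ℕ) [NeZero m], Setting W p m →
    KuriharaFormula W p m

end Pool.Agent.W97.KF
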