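import Pool.Agent.W97.KF.Defs
import Pool.Agent.W97.KE.Fin

/-!
Transfer of the result about the definitions of `KE` to the definitions of `KF`.
-/

set_option autoImplicit false

open scoped Classical

namespace Pool.Agent.W97.KF

open Pool.Agent.W97.V20 (E4)

theorem fitt_new (W : WeierstrassCurve ℤ) (p : ℕ) [Fact p.Prime] (m : ℕ) [NeZero m]
    (I : Ideal (Rm p m)) (h : IsFitt (Rm p m) (X W p m) I) :
    (newDat W p m).Fitt I := by
  obtain ⟨n, φ, h1, h2⟩ := h
  have h3 : ∀ (r : Rm p m) (v : Fin n → Rm p m), φ (r • v) = r • φ v := fun r v => φ.map_smul r v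
  exact ⟨n, φ.toAddMonoidHom,
    fun r v a => congrArg (fun f : CharacterModule (Sel W p m) => f a) (h3 r v), h1, h2⟩

theorem formula {W : WeierstrassCurve ℤ} {p : ℕ} [Fact p.Prime] {m : ℕ} [NeZero m]
    (h : KuriharaFormula W p m) (hp : ¬ p ∣ m) :
    Pool.Agent.W97.KE.KuriharaFormula W p m hp := by
  obtain ⟨S, α, ϑ, _, h1, h2, h3, h4⟩ := h
  have h5 := fitt_new W p m _ h4
  rw [newDat_eq] at h5
  exact ⟨⟨S.plus, S.minus, S.eq⟩, α, ϑ, h1, h2, h3, Gen.fitt_old W p m _ h5⟩

theorem setting {W : WeierstrassCurve ℤ} {p m : ℕ} (h : Pool.Agent.W97.KE.Setting W p m) :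
    Setting W p m where
  minimal := h.minimal
  prime := h.prime
  odd := h.odd
  good := h.good
  ordinary := h.ordinary
  irred := h.irred
  tors := h.tors
  pos := h.pos
  coprime := h.coprime

end Pool.Agent.W97.KF
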