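import Pool.Agent.W97.KE.Conj

/-!
The Selmer group of `KE.Defs` for a variable subgroup of the group of cochains.
-/

set_option autoImplicit false

open scoped Classical

namespace Pool.Agent.W97.KF.Gen

open Pool.Agent.W97

/-- a subgroup of the group of cochains, stable under the Galois group -/
structure Dat (W : WeierstrassCurve ℤ) (p m : ℕ) where
  Z : AddSubgroup (KE.H p m → KE.Pt W KE.Qb)
  hZ : ∀ (h : KE.GQ) (c : KE.H p m → KE.Pt W KE.Qb), c ∈ Z → KE.cact W p m h c ∈ Z

section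
variable {W : WeierstrassCurve ℤ} {p m : ℕ}

abbrev Dat.Sel (D : Dat W p m) : Type := D.Z ⧸ (KE.BSel W p m).addSubgroupOf D.Z

noncomputable def Dat.selAct (D : Dat W p m) (h : KE.GQ) : D.Sel →+ D.Sel :=
  QuotientAddGroup.map _ _
    (((KE.cact W p m h).comp D.Z.subtype).codRestrict D.Z fun c => D.hZ h c.1 c.2)
    (by
      intro c hc
      rw [AddSubgroup.mem_comap, AddSubgroup.mem_addSubgroupOf]
      exact KE.cact_mem_BSel W p m h (AddSubgroup.mem_addSubgroupOf.1 hc))

def Dat.FixedBy (D : Dat W p m) (a : D.Sel) (n : ℕ) : Prop :=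
  ∀ h : KE.GQ, (∀ z : KE.Qb, z ^ (m * p ^ (n + 1)) = 1 → h z = z) → D.selAct h a = a

variable [Fact p.Prime]

noncomputable def Dat.smulSel (D : Dat W p m) (r : KE.Rm p m) (a : D.Sel) : D.Sel :=
  let n := Classical.epsilon (D.FixedBy a)
  let k := Classical.epsilon (fun k : ℕ => p ^ k • a = 0)
  ∑ᶠ u : (ZMod (m * p ^ (n + 1)))ˣ,
    (((r.1 n).coeff u : ℤ_[p]).appr k) • D.selAct (KE.sig (m * p ^ (n + 1)) u)⁻¹ a

structure Dat.Mod (D : Dat W p m) : Prop where
  one_smul : ∀ a, D.smulSel 1 a = a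
  mul_smul : ∀ r s a, D.smulSel (r * s) a = D.smulSel r (D.smulSel s a)
  smul_add : ∀ r a b, D.smulSel r (a + b) = D.smulSel r a + D.smulSel r b
  add_smul : ∀ r s a, D.smulSel (r + s) a = D.smulSel r a + D.smulSel s a
  smul_zero : ∀ r, D.smulSel r 0 = 0
  zero_smul : ∀ a, D.smulSel 0 a = 0

/-- the existence of a presentation with the given Fitting ideal -/
def Dat.Fitt (D : Dat W p m) (I : Ideal (KE.Rm p m)) : Prop :=
  ∃ (n : ℕ) (φ : (Fin n → KE.Rm p m) →+ CharacterModule D.Sel),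
    (∀ (r : KE.Rm p m) (v : Fin n → KE.Rm p m) (a : D.Sel), φ (r • v) a = φ v (D.smulSel r a)) ∧
    Function.Surjective φ ∧
    I = Ideal.span {d : KE.Rm p m | ∃ A : Matrix (Fin n) (Fin n) (KE.Rm p m),
      (∀ i, φ (A i) = 0) ∧ d = A.det}

end

/-- the original Selmer group -/
noncomputable def oldDat (W : WeierstrassCurve ℤ) (p m : ℕ) : Dat W p m where
  Z := KE.ZSel W p m
  hZ := fun h _ hc => KE.cact_mem_ZSel W p m h hc

section
variable (W : WeierstrassCurve ℤ) (p m : ℕ) [Fact p.Prime]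

theorem smul_old (r : KE.Rm p m) (a : KE.Sel W p m) :
    (oldDat W p m).smulSel r a = KE.smulSel W p m r a := rfl

theorem mod_old [NeZero m] : (oldDat W p m).Mod where
  one_smul := (KE.selModule W p m).one_smul
  mul_smul := (KE.selModule W p m).mul_smul
  smul_add := (KE.selModule W p m).smul_add
  add_smul := (KE.selModule W p m).add_smul
  smul_zero := (KE.selModule W p m).smul_zero
  zero_smul := (KE.selModule W p m).zero_smul

theorem fitt_old [NeZero m] (I : Ideal (KE.Rm p m)) (h : (oldDat W p m).Fitt I) :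
    KE.IsFitt (KE.Rm p m) (KE.X W p m) I := by
  obtain ⟨n, φ, h1, h2, h3⟩ := h
  let ψ : (Fin n → KE.Rm p m) →ₗ[KE.Rm p m] KE.X W p m :=
    { toFun := φ
      map_add' := φ.map_add
      map_smul' := fun r v => by
        apply CharacterModule.ext
        intro a
        exact h1 r v a }
  exact ⟨n, ψ, h2, h3⟩

end

end Pool.Agent.W97.KF.Gen
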